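import Pool.Agent.W606.UB.Stm

set_option autoImplicit false

namespace Pool.Agent.W154.UB

noncomputable def r3 (n : ℕ) : ℝ := (n : ℝ) ^ (1 / 3 : ℝ)

theorem r3_pos {n : ℕ} (hn : 1 ≤ n) : 0 < r3 n :=
  Real.rpow_pos_of_pos (by exact_mod_cast hn) _

theorem r3_ge {n : ℕ} (hn : 1 ≤ n) : 1 ≤ r3 n :=
  Real.one_le_rpow (by exact_mod_cast hn) (by norm_num)

theorem r3_mul {n : ℕ} (hn : 1 ≤ n) : r3 n * (n : ℝ) ^ (2 / 3 : ℝ) = n := by
  unfold r3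
  rw [← Real.rpow_add (by exact_mod_cast hn)]
  norm_num

theorem r3_le {n m : ℕ} (h : m ≤ 8 * n) : r3 m ≤ 2 * r3 n := by
  unfold r3
  have h1 : (m : ℝ) ≤ 8 * (n : ℝ) := by exact_mod_cast h
  have h2 : (m : ℝ) ^ (1 / 3 : ℝ) ≤ (8 * (n : ℝ)) ^ (1 / 3 : ℝ) :=
    Real.rpow_le_rpow (Nat.cast_nonneg m) h1 (by norm_num)
  have h3 : (8 * (n : ℝ)) ^ (1 / 3 : ℝ) = 2 * (n : ℝ) ^ (1 / 3 : ℝ) := by
    rw [Real.mul_rpow (by norm_num) (Nat.cast_nonneg n)]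
    congr 1
    rw [show (8 : ℝ) = 2 ^ (3 : ℝ) by norm_num, ← Real.rpow_mul (by norm_num)]
    norm_num
  linarith

/-- the iterates -/
def it (β n : ℕ) : ℕ → ℕ
  | 0 => n
  | j + 1 => 2 * (it β n j + β)

theorem it_add (β n j : ℕ) : it β n j + 2 * β = 2 ^ j * (n + 2 * β) := by
  induction j with
  | zero => simp [it]
  | succ j ih =>
    rw [it, pow_succ]
    nlinarith [ih]

theorem it_ge (β n j : ℕ) : n ≤ it β n j := by
  induction j with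
  | zero => exact le_rfl
  | succ j ih => rw [it]; omega

theorem core (A : ℕ → ℝ) (hA : ∀ n, 0 ≤ A n) (μ : ℝ) (hμ : 1 < μ)
    (hupper : ∀ τ : ℝ, 0 < τ → ∃ C : ℝ, ∀ n : ℕ, A n ≤ C * ((1 + τ) * μ) ^ n)
    (β N₀ : ℕ) (c : ℝ) (hc : 0 < c)
    (h : ∀ n : ℕ, N₀ ≤ n → c * (n : ℝ) ^ (2 / 3 : ℝ) * A n ^ 2 ≤ n * A (2 * (n + β)))
    (n : ℕ) (hn0 : N₀ ≤ n) (hn1 : 2 * β ≤ n) (hn2 : 1 ≤ n) :
    c / 2 * (A n / r3 n) ≤ μ ^ (n + 2 * β) := by
  by_contra hcon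
  push Not at hcon
  set b : ℕ → ℝ := fun m => c / 2 * (A m / r3 m) with hb
  have hbn : ∀ m, 1 ≤ m → 0 ≤ b m := fun m hm =>
    mul_nonneg (by positivity) (div_nonneg (hA m) (r3_pos hm).le)
  have hstep : ∀ m, n ≤ m → b m ^ 2 ≤ b (2 * (m + β)) := by
    intro m hm
    have hm1 : 1 ≤ m := hn2.trans hm
    have h1 := h m (hn0.trans hm)
    have hr := r3_pos hm1
    have hr2 : 0 < r3 (2 * (m + β)) := r3_pos (by omega)
    have hle : r3 (2 * (m + β)) ≤ 2 * r3 m := r3_le (by omega)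
    have hp : (0 : ℝ) < (m : ℝ) ^ (2 / 3 : ℝ) :=
      Real.rpow_pos_of_pos (by exact_mod_cast hm1) _
    have h2 : c * A m ^ 2 ≤ r3 m * A (2 * (m + β)) := by
      have e := r3_mul hm1
      have h3 : (m : ℝ) ^ (2 / 3 : ℝ) * (c * A m ^ 2) ≤
          (m : ℝ) ^ (2 / 3 : ℝ) * (r3 m * A (2 * (m + β))) := by
        calc (m : ℝ) ^ (2 / 3 : ℝ) * (c * A m ^ 2) = c * (m : ℝ) ^ (2 / 3 : ℝ) * A m ^ 2 := by ring
          _ ≤ m * A (2 * (m + β)) := h1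
          _ = (r3 m * (m : ℝ) ^ (2 / 3 : ℝ)) * A (2 * (m + β)) := by rw [e]
          _ = _ := by ring
      exact le_of_mul_le_mul_left h3 hp
    simp only [hb]
    have h4 : A (2 * (m + β)) / (2 * r3 m) ≤ A (2 * (m + β)) / r3 (2 * (m + β)) :=
      div_le_div_of_nonneg_left (hA _) hr2 hle
    have h5 : (c / 2 * (A m / r3 m)) ^ 2 = c / 2 * ((c * A m ^ 2) / r3 m / (2 * r3 m)) := by
      field_simp
    rw [h5]
    refine mul_le_mul_of_nonneg_left (le_trans ?_ h4) (by positivity)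
    refine div_le_div_of_nonneg_right ?_ (by positivity)
    rw [div_le_iff₀ hr]
    linarith
  have hit : ∀ j, b n ^ 2 ^ j ≤ b (it β n j) := by
    intro j
    induction j with
    | zero => simp [it]
    | succ j ih =>
      rw [it, pow_succ, pow_mul]
      refine le_trans ?_ (hstep _ (it_ge β n j))
      exact pow_le_pow_left₀ (pow_nonneg (hbn n hn2) _) ih 2
  -- choose tau
  obtain ⟨τ, hτ, hτb⟩ : ∃ τ : ℝ, 0 < τ ∧ ((1 + τ) * μ) ^ (n + 2 * β) < b n := by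
    have hcont : Continuous fun τ : ℝ => ((1 + τ) * μ) ^ (n + 2 * β) := by fun_prop
    have hlt : (fun τ : ℝ => ((1 + τ) * μ) ^ (n + 2 * β)) 0 < b n := by
      simpa using hcon
    have hev := (hcont.tendsto 0).eventually (gt_mem_nhds hlt)
    obtain ⟨ε, hε, hball⟩ := Metric.eventually_nhds_iff.1 hev
    refine ⟨ε / 2, by positivity, hball ?_⟩
    rw [Real.dist_eq, sub_zero, abs_of_pos (by positivity)]
    linarith
  obtain ⟨C, hC⟩ := hupper τ hτ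
  set lam := (1 + τ) * μ with hlam
  have hlam1 : 1 < lam := by rw [hlam]; nlinarith
  have hlp : 0 < lam ^ (n + 2 * β) := by positivity
  set θ := b n / lam ^ (n + 2 * β) with hθ
  have hθ1 : 1 < θ := by rw [hθ, one_lt_div hlp]; exact hτb
  have hbθ : b n = θ * lam ^ (n + 2 * β) := by rw [hθ]; field_simp
  have hbd : ∀ j, θ ^ 2 ^ j ≤ c / 2 * C := by
    intro j
    have h1 := hit j
    have hN1 : 1 ≤ it β n j := hn2.trans (it_ge β n j)
    have h2 : b (it β n j) ≤ c / 2 * (C * lam ^ it β n j) := by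
      simp only [hb]
      refine mul_le_mul_of_nonneg_left ?_ (by positivity)
      exact (div_le_self (hA _) (r3_ge hN1)).trans (hC _)
    have h3 : b n ^ 2 ^ j = θ ^ 2 ^ j * lam ^ (it β n j + 2 * β) := by
      rw [hbθ, mul_pow, ← pow_mul, it_add, mul_comm (n + 2 * β)]
    have h4 : θ ^ 2 ^ j * lam ^ it β n j ≤ θ ^ 2 ^ j * lam ^ (it β n j + 2 * β) := by
      refine mul_le_mul_of_nonneg_left (pow_le_pow_right₀ hlam1.le (by omega)) (by positivity)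
    have h5 : θ ^ 2 ^ j * lam ^ it β n j ≤ (c / 2 * C) * lam ^ it β n j := by
      calc _ ≤ _ := h4
        _ = b n ^ 2 ^ j := h3.symm
        _ ≤ _ := h1
        _ ≤ _ := h2
        _ = _ := by ring
    exact le_of_mul_le_mul_right h5 (by positivity)
  obtain ⟨k, hk⟩ := pow_unbounded_of_one_lt (c / 2 * C) hθ1
  have h6 : θ ^ k ≤ θ ^ 2 ^ k := pow_le_pow_right₀ hθ1.le Nat.lt_two_pow_self.le
  exact absurd (hbd k) (not_le.2 (lt_of_lt_of_le hk h6))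

theorem fin (A : ℕ → ℝ) (hA : ∀ n, 0 ≤ A n) (μ : ℝ) (hμ : 1 < μ)
    (hupper : ∀ τ : ℝ, 0 < τ → ∃ C : ℝ, ∀ n : ℕ, A n ≤ C * ((1 + τ) * μ) ^ n)
    (β N₀ : ℕ) (c : ℝ) (hc : 0 < c)
    (h : ∀ n : ℕ, N₀ ≤ n → c * (n : ℝ) ^ (2 / 3 : ℝ) * A n ^ 2 ≤ n * A (2 * (n + β))) :
    ∃ C : ℝ, ∀ n : ℕ, 1 ≤ n → A n / (2 * n) ≤ C * (n : ℝ) ^ (-(2 / 3) : ℝ) * μ ^ n := by
  set n1 := N₀ + 2 * β + 1 with hn1
  refine ⟨1 / c * μ ^ (2 * β) + ∑ k ∈ Finset.range n1, A k / (2 * k) * (k : ℝ) ^ (2 / 3 : ℝ),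
    fun n hn => ?_⟩
  have hnp : (0 : ℝ) < n := by exact_mod_cast hn
  have hinv : (n : ℝ) ^ (-(2 / 3) : ℝ) * (n : ℝ) ^ (2 / 3 : ℝ) = 1 := by
    rw [← Real.rpow_add hnp]
    norm_num
  have hip : (0 : ℝ) < (n : ℝ) ^ (-(2 / 3) : ℝ) := Real.rpow_pos_of_pos hnp _
  have h2p : (0 : ℝ) < (n : ℝ) ^ (2 / 3 : ℝ) := Real.rpow_pos_of_pos hnp _
  have hμn : 1 ≤ μ ^ n := one_le_pow₀ hμ.le
  have hsum : 0 ≤ ∑ k ∈ Finset.range n1, A k / (2 * k) * (k : ℝ) ^ (2 / 3 : ℝ) :=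
    Finset.sum_nonneg fun k _ => mul_nonneg (div_nonneg (hA k) (by positivity)) (by positivity)
  have hfirst : 0 ≤ 1 / c * μ ^ (2 * β) := by positivity
  by_cases hlt : n < n1
  · have h1 : A n / (2 * n) * (n : ℝ) ^ (2 / 3 : ℝ) ≤
        ∑ k ∈ Finset.range n1, A k / (2 * k) * (k : ℝ) ^ (2 / 3 : ℝ) :=
      Finset.single_le_sum (f := fun k : ℕ => A k / (2 * k) * (k : ℝ) ^ (2 / 3 : ℝ))
        (fun k _ => mul_nonneg (div_nonneg (hA k) (by positivity)) (by positivity))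
        (Finset.mem_range.2 hlt)
    have h0 : 0 ≤ A n / (2 * n) := div_nonneg (hA n) (by positivity)
    calc A n / (2 * n) = A n / (2 * n) * ((n : ℝ) ^ (-(2 / 3) : ℝ) * (n : ℝ) ^ (2 / 3 : ℝ)) := by
          rw [hinv, mul_one]
      _ = (A n / (2 * n) * (n : ℝ) ^ (2 / 3 : ℝ)) * (n : ℝ) ^ (-(2 / 3) : ℝ) := by ring
      _ ≤ (1 / c * μ ^ (2 * β) + ∑ k ∈ Finset.range n1, A k / (2 * k) * (k : ℝ) ^ (2 / 3 : ℝ)) *
          (n : ℝ) ^ (-(2 / 3) : ℝ) := by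
          refine mul_le_mul_of_nonneg_right ?_ hip.le
          linarith
      _ ≤ _ := le_mul_of_one_le_right (mul_nonneg (by linarith) hip.le) hμn
  · push Not at hlt
    have h1 := core A hA μ hμ hupper β N₀ c hc h n (by omega) (by omega) hn
    have hr := r3_pos hn
    have e := r3_mul hn
    have h2 : A n ≤ 2 / c * μ ^ (n + 2 * β) * r3 n := by
      have h3 : A n = 2 / c * (c / 2 * (A n / r3 n)) * r3 n := by
        field_simp
      rw [h3]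
      refine mul_le_mul_of_nonneg_right ?_ hr.le
      exact mul_le_mul_of_nonneg_left h1 (by positivity)
    have h4 : r3 n = n * (n : ℝ) ^ (-(2 / 3) : ℝ) := by
      calc r3 n = r3 n * ((n : ℝ) ^ (-(2 / 3) : ℝ) * (n : ℝ) ^ (2 / 3 : ℝ)) := by
            rw [hinv, mul_one]
        _ = (r3 n * (n : ℝ) ^ (2 / 3 : ℝ)) * (n : ℝ) ^ (-(2 / 3) : ℝ) := by ring
        _ = _ := by rw [e]
    calc A n / (2 * n) ≤ (2 / c * μ ^ (n + 2 * β) * r3 n) / (2 * n) :=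
          div_le_div_of_nonneg_right h2 (by positivity)
      _ = (1 / c * μ ^ (2 * β)) * (n : ℝ) ^ (-(2 / 3) : ℝ) * μ ^ n := by
          rw [h4, pow_add]
          field_simp
      _ ≤ _ := by
          refine mul_le_mul_of_nonneg_right (mul_le_mul_of_nonneg_right ?_ hip.le) (by positivity)
          linarith

end Pool.Agent.W154.UB

namespace KN

namespace UB

theorem ana_main (hupper : ∀ τ : ℝ, 0 < τ → ∃ C : ℝ, ∀ n : ℕ, (a U n : ℝ) ≤ C * ((1 + τ) * gr U) ^ n)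
    (hg : 1 < gr U) : P_ana := by
  intro β N₀ c hc h
  exact Pool.Agent.W154.UB.fin (fun n => (a U n : ℝ)) (fun n => Nat.cast_nonneg _) (gr U) hg hupper
    β N₀ c hc h

end UB

end KN
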